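import Pool.Agent.Q40.OD.Stm1

/-! Job OD-8, first part: the chart with a nondegenerate singular point. -/

set_option autoImplicit false
set_option linter.unusedSectionVars false
set_option linter.unusedVariables false

open scoped Pointwise

namespace Pool.Agent.Q154.OD

open Pool.Agent.H918R2.Quad Pool.Agent.TH214.RM MvPolynomial Pool.Agent.Q40.OD

/-- Multiplying the strict transform by a monomial. -/
theorem EE_mul {S τ : Type} [CommRing S] [Fintype τ] [DecidableEq τ] (q : τ → τ → S) (u : S)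
    (i : τ) (k v : ℕ) (hv : 2 * k ≤ v) :
    ∃ m : ℕ, X none ^ (2 * k) * X (some i) ^ m * EE q u i k v =
      C u * (X none * X (some i)) ^ v + X none ^ (2 * k) * X (some i) ^ (2 * k + 2) * qq q i := by
  unfold EE
  by_cases h1 : 2 * k + 2 ≤ v
  · refine ⟨2 * k + 2, ?_⟩
    rw [if_pos h1]
    obtain ⟨l, rfl⟩ := Nat.exists_eq_add_of_le h1
    have e1 : 2 * k + 2 + l - 2 * k = l + 2 := by omega
    have e2 : l + 2 - 2 = l := by omega
    rw [e1, e2]
    ring
  · rw [if_neg h1]
    by_cases h2 : v = 2 * k + 1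
    · refine ⟨2 * k + 1, ?_⟩
      rw [if_pos h2, h2]
      ring
    · refine ⟨2 * k, ?_⟩
      have h3 : v = 2 * k := by omega
      rw [if_neg h2, h3]
      ring

section ext

variable {R F σ : Type} [CommRing R] [Field F] [Algebra R F]

/-- Extension of an evaluation to further variables. -/
noncomputable def evW (e : MvPolynomial σ R →ₐ[R] F) (vals : Option σ → F) :
    MvPolynomial (Option σ) (MvPolynomial σ R) →ₐ[R] F :=
  { eval₂Hom (e : MvPolynomial σ R →+* F) vals with
    commutes' := by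
      intro r
      have h1 : algebraMap R (MvPolynomial (Option σ) (MvPolynomial σ R)) r = C (C r) := rfl
      rw [h1]
      change eval₂Hom (e : MvPolynomial σ R →+* F) vals (C (C r)) = _
      rw [coe_eval₂Hom, eval₂_C]
      exact e.commutes r }

theorem evW_C (e : MvPolynomial σ R →ₐ[R] F) (vals : Option σ → F) (a : MvPolynomial σ R) :
    evW e vals (C a) = e a := by
  change eval₂Hom (e : MvPolynomial σ R →+* F) vals (C a) = _
  rw [coe_eval₂Hom, eval₂_C]
  rfl

theorem evW_X (e : MvPolynomial σ R →ₐ[R] F) (vals : Option σ → F) (o : Option σ) :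
    evW e vals (X o) = vals o := by
  change eval₂Hom (e : MvPolynomial σ R →+* F) vals (X o) = _
  rw [coe_eval₂Hom, eval₂_X]

theorem evW_mem (𝒪 : Subring F) (e : MvPolynomial σ R →ₐ[R] F) (vals : Option σ → F)
    (he : ∀ w, e w ∈ 𝒪) (hv : ∀ o, vals o ∈ 𝒪) : ∀ z, evW e vals z ∈ 𝒪 := by
  intro z
  induction z using MvPolynomial.induction_on with
  | C r => rw [evW_C]; exact he r
  | add p q hp hq => rw [map_add]; exact 𝒪.add_mem hp hq
  | mul_X p j hp => rw [map_mul, evW_X]; exact 𝒪.mul_mem hp (hv _)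

/-- The values of the variables. -/
def vals [DecidableEq σ] (w T : F) (sa : σ → F) (i : σ) : Option σ → F :=
  fun o => o.elim w fun a => if a = i then T else sa a

theorem aeval_CX (P : MvPolynomial σ R) :
    aeval (fun j : σ => (C (X j) : MvPolynomial (Option σ) (MvPolynomial σ R))) P = C P := by
  induction P using MvPolynomial.induction_on with
  | C r => rw [aeval_C]; rfl
  | add p q hp hq => rw [map_add, hp, hq, C_add]
  | mul_X p j hp => rw [map_mul, hp, aeval_X, C_mul]

end ext

/-- **The chart at a nondegenerate singular point.** -/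
theorem caseC (h5 : S_OD5) (h6 : S_OD6) {R F : Type} [CommRing R] [IsDomain R]
    [IsDiscreteValuationRing R] [Field F] [Algebra R F] (𝒪 : Subring F) (hloc : IsLoc 𝒪)
    (hRF : Function.Injective (algebraMap R F)) (π : R) (hπ : Irreducible π)
    {σ : Type} [Fintype σ] [DecidableEq σ] (e : MvPolynomial σ R →ₐ[R] F)
    (he : ∀ w, e w ∈ 𝒪) (g : MvPolynomial σ R) (D : σ → MvPolynomial σ R)
    (Q : Ideal (MvPolynomial σ R)) [Q.IsMaximal] (hQ : ∀ z, z ∈ Q ↔ ¬ U 𝒪 (e z))
    (hπQ : C π ∈ Q) (hDQ : ∀ a, D a ∈ Q)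
    (hgen : ∀ x ∈ Q, ∃ c, c ∉ Q ∧ c * x ∈ Ideal.span (insert (C π) (Set.range D)))
    (hht : ((Fintype.card σ + 1 : ℕ) : ℕ∞) ≤ Q.height)
    (v : ℕ) (c u : MvPolynomial σ R) (q : σ → σ → MvPolynomial σ R) (hv1 : 1 ≤ v)
    (hc : c ∉ Q) (hu : u ∉ Q) (hq : (Matrix.of fun a b => q a b + q b a).det ∉ Q)
    (hrel : c * g = u * C π ^ v + ∑ a, ∑ b, q a b * D a * D b)
    (hg0 : g ≠ 0) (hge : e g = 0) (k : ℕ) (i : σ) (hi : e (D i) ≠ 0) (w T : F) (sa : σ → F)
    (hwT : w * T = algebraMap R F π) (hsa : ∀ a, e (D a) = w ^ k * T ^ (k + 1) * sa a)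
    (hsi : sa i = 1) (hw : w ∈ 𝒪) (hwU : ¬ U 𝒪 w) (hT : T ∈ 𝒪) (hsaO : ∀ a, sa a ∈ 𝒪)
    (hfrac : ∀ z ∈ 𝒪, ∃ a b : MvPolynomial (Option σ) (MvPolynomial σ R),
      evW e (vals w T sa i) b ≠ 0 ∧ (evW e (vals w T sa i) b)⁻¹ ∈ 𝒪 ∧
        z = evW e (vals w T sa i) a / evW e (vals w T sa i) b)
    (j₀ : σ) (hind : AlgebraicIndependent R (fun j : {j : σ // j ≠ j₀} => e (X (j : σ)))) :
    IsRegularLocalRing 𝒪 := by
  obtain ⟨eW, heW⟩ : ∃ eW, eW = evW e (vals w T sa i) := ⟨_, rfl⟩
  rw [← heW] at hfrac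
  have hπ0 : algebraMap R F π ≠ 0 := by
    rw [Ne, map_eq_zero_iff _ hRF]
    exact hπ.ne_zero
  have hw0 : w ≠ 0 := by
    rintro rfl
    rw [zero_mul] at hwT
    exact hπ0 hwT.symm
  have hT0 : T ≠ 0 := by
    rintro rfl
    rw [mul_zero] at hwT
    exact hπ0 hwT.symm
  have heWm : ∀ z, eW z ∈ 𝒪 := by
    rw [heW]
    refine evW_mem 𝒪 e _ he fun o => ?_
    rcases o with _ | a
    · exact hw
    · change (if a = i then T else sa a) ∈ 𝒪
      split_ifs
      · exact hT
      · exact hsaO a
  have hC : ∀ a, eW (C a) = e a := fun a => by rw [heW]; exact evW_C _ _ a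
  have hXn : eW (X none) = w := by rw [heW, evW_X]; rfl
  have hXi : eW (X (some i)) = T := by
    rw [heW, evW_X]
    change (if i = i then T else sa i) = T
    rw [if_pos rfl]
  have hsv : ∀ a, eW (sv (MvPolynomial σ R) i a) = sa a := by
    intro a
    unfold sv
    split_ifs with h
    · rw [map_one, h, hsi]
    · rw [heW, evW_X]
      change (if a = i then T else sa a) = sa a
      rw [if_neg h]
  have heCπ : e (C π) = algebraMap R F π := e.commutes π
  have hqq : eW (qq q i) = ∑ a, ∑ b, e (q a b) * sa a * sa b := by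
    unfold qq
    simp only [map_sum, map_mul, hC, hsv]
  have hkey : e u * (w * T) ^ v + w ^ (2 * k) * T ^ (2 * k + 2) * eW (qq q i) = 0 := by
    have h1 := congrArg e hrel
    rw [map_mul, hge, mul_zero, map_add, map_mul, map_pow, heCπ, ← hwT] at h1
    rw [h1, hqq]
    congr 1
    simp only [map_sum, map_mul, hsa, Finset.mul_sum]
    refine Finset.sum_congr rfl fun a _ => Finset.sum_congr rfl fun b _ => ?_
    ring
  have hUu : U 𝒪 (e u) := by
    by_contra h
    exact hu ((hQ u).2 h)
  have hvk : 2 * k ≤ v := by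
    by_contra hcon
    push Not at hcon
    obtain ⟨l, hl⟩ := Nat.exists_eq_add_of_lt hcon
    have h1 : (w ^ v * T ^ v) * (e u + w * (w ^ l * T ^ (l + 3) * eW (qq q i))) = 0 := by
      rw [← hkey, hl]
      ring
    have h2 : e u = w * -(w ^ l * T ^ (l + 3) * eW (qq q i)) := by
      rcases mul_eq_zero.1 h1 with h | h
      · exact absurd h (mul_ne_zero (pow_ne_zero _ hw0) (pow_ne_zero _ hT0))
      · linear_combination h
    rw [h2] at hUu
    exact hwU (hUu.of_mul_left hw (𝒪.neg_mem (𝒪.mul_mem (𝒪.mul_mem (𝒪.pow_mem hw _)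
      (𝒪.pow_mem hT _)) (heWm _))))
  obtain ⟨m, hm⟩ := EE_mul q u i k v hvk
  have hEE : eW (EE q u i k v) = 0 := by
    have h1 := congrArg eW hm
    simp only [map_mul, map_add, map_pow, hXn, hXi, hC] at h1
    rw [hkey] at h1
    rcases mul_eq_zero.1 h1 with h | h
    · exact absurd h (mul_ne_zero (pow_ne_zero _ hw0) (pow_ne_zero _ hT0))
    · exact h
  let I : Ideal (MvPolynomial (Option σ) (MvPolynomial σ R)) :=
    Ideal.span (insert (EE q u i k v) (rels (C π) D k i))
  have hI : ∀ z ∈ I, eW z = 0 := by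
    have h1 : I ≤ RingHom.ker (eW : MvPolynomial (Option σ) (MvPolynomial σ R) →+* F) := by
      refine Ideal.span_le.2 ?_
      intro z hz
      rcases Set.mem_insert_iff.1 hz with rfl | hz
      · exact hEE
      · rcases Set.mem_insert_iff.1 hz with rfl | ⟨a, rfl⟩
        · change eW _ = 0
          rw [map_sub, map_mul, hC, hXn, hXi, heCπ, hwT, sub_self]
        · change eW _ = 0
          simp only [map_sub, map_mul, map_pow, hC, hXn, hXi, hsv]
          rw [hsa, sub_self]
    intro z hz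
    exact h1 hz
  obtain ⟨A, _, _, pr, hpr, hprk, hpr0⟩ := exists_quot (R := R) I
  have r1 : pr (C (C π)) = pr (X none) * pr (X (some i)) := by
    rw [← map_mul, ← sub_eq_zero, ← map_sub, hpr0]
    exact Ideal.subset_span (Set.mem_insert_of_mem _ (Set.mem_insert _ _))
  have r2 : ∀ a, pr (C (D a)) = pr (X none) ^ k * pr (X (some i)) ^ (k + 1) *
      pr (sv (MvPolynomial σ R) i a) := by
    intro a
    rw [← map_pow, ← map_pow, ← map_mul, ← map_mul, ← sub_eq_zero, ← map_sub, hpr0]
    exact Ideal.subset_span (Set.mem_insert_of_mem _ (Set.mem_insert_of_mem _ ⟨a, rfl⟩))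
  have r0 : pr (EE q u i k v) = 0 := (hpr0 _).2 (Ideal.subset_span (Set.mem_insert _ _))
  refine regular_of_pres 𝒪 hloc pr hpr eW (fun z hz => hI z ((hpr0 z).1 hz)) heWm hfrac ?_
    (fun j : σ => C (X j)) (c * g) ?_ ?_ j₀ ?_ ?_
  · intro p hp hpm
    have hpQ : ∀ x : MvPolynomial σ R,
        (pr : MvPolynomial (Option σ) (MvPolynomial σ R) →+* A) (C x) ∈ p ↔ x ∈ Q := by
      intro x
      change pr (C x) ∈ p ↔ _
      rw [hpm, hC, hQ]
    have hpw : (pr : MvPolynomial (Option σ) (MvPolynomial σ R) →+* A) (X none) ∈ p := by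
      change pr (X none) ∈ p
      rw [hpm, hXn]
      exact hwU
    by_cases hcase : v = 2 * k + 1 ∧ pr (X (some i)) ∈ p
    · obtain ⟨hvv, hTp⟩ := hcase
      refine h5 Q (C π) D hπQ hDQ hgen hht q u hu i k (pr : _ →+* A) hpr ?_ p hpQ hpw hTp
      rw [← hvv]
      exact hprk
    · push Not at hcase
      exact h6 Q (C π) D hπQ hDQ hgen hht q hq u hu i k v hvk hv1 (pr : _ →+* A) hpr hprk p hpQ hpw
        hcase
  · refine mul_ne_zero ?_ hg0
    rintro rfl
    exact hc Q.zero_mem
  · rw [aeval_CX]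
    have h1 := congrArg pr hm
    simp only [map_mul, map_add, map_pow, r0, mul_zero] at h1
    rw [hrel]
    have h2 : pr (C (u * C π ^ v + ∑ a, ∑ b, q a b * D a * D b)) =
        pr (C u) * (pr (X none) * pr (X (some i))) ^ v +
          pr (X none) ^ (2 * k) * pr (X (some i)) ^ (2 * k + 2) * pr (qq q i) := by
      simp only [map_sum, map_add, map_mul, map_pow, r1]
      congr 1
      unfold qq
      simp only [map_sum, map_mul, Finset.mul_sum, r2]
      refine Finset.sum_congr rfl fun a _ => Finset.sum_congr rfl fun b _ => ?_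
      ring
    rw [h2]
    exact h1.symm
  · convert hind using 2 with j
    exact hC _
  · have hgenC : ∀ a : MvPolynomial σ R, ∃ p p' : MvPolynomial σ R, e p' ≠ 0 ∧
        pr (C p' * C a) = pr (C p) := fun a => ⟨a, 1, by rw [map_one]; exact one_ne_zero, by
          rw [map_one, one_mul]⟩
    have hgenX : ∀ o : Option σ, ∃ p p' : MvPolynomial σ R, e p' ≠ 0 ∧
        pr (C p' * X o) = pr (C p) := by
      intro o
      rcases o with _ | a
      · refine ⟨C π ^ (k + 1), D i, hi, ?_⟩
        have h1 : sv (MvPolynomial σ R) i i = 1 := if_pos rfl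
        rw [map_mul, r2, C_pow, map_pow, r1, h1, map_one]
        ring
      · by_cases ha : a = i
        · subst ha
          refine ⟨D a, C π ^ k, ?_, ?_⟩
          · rw [map_pow, heCπ]
            exact pow_ne_zero _ hπ0
          · have h1 : sv (MvPolynomial σ R) a a = 1 := if_pos rfl
            rw [map_mul, r2, C_pow, map_pow, r1, h1, map_one]
            ring
        · refine ⟨D a, D i, hi, ?_⟩
          have h1 : sv (MvPolynomial σ R) i i = 1 := if_pos rfl
          have h2 : sv (MvPolynomial σ R) i a = X (some a) := if_neg ha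
          rw [map_mul, r2, r2, h1, h2, map_one]
          ring
    intro z
    have key : ∃ p p' : MvPolynomial σ R, e p' ≠ 0 ∧ pr (C p' * z) = pr (C p) := by
      induction z using MvPolynomial.induction_on with
      | C a => exact hgenC a
      | add z1 z2 hz1 hz2 =>
        obtain ⟨p1, p1', h1, h1'⟩ := hz1
        obtain ⟨p2, p2', h2, h2'⟩ := hz2
        refine ⟨p1 * p2' + p2 * p1', p1' * p2', ?_, ?_⟩
        · rw [map_mul]
          exact mul_ne_zero h1 h2
        · rw [map_mul] at h1' h2'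
          simp only [map_mul, map_add]
          linear_combination pr (C p2') * h1' + pr (C p1') * h2'
      | mul_X z1 o hz1 =>
        obtain ⟨p1, p1', h1, h1'⟩ := hz1
        obtain ⟨p2, p2', h2, h2'⟩ := hgenX o
        refine ⟨p1 * p2, p1' * p2', ?_, ?_⟩
        · rw [map_mul]
          exact mul_ne_zero h1 h2
        · rw [map_mul] at h1' h2'
          simp only [map_mul]
          linear_combination pr (C p2') * pr (X o) * h1' + pr (C p1) * h2'
    obtain ⟨p, p', h1, h2⟩ := key
    refine ⟨p, p', ?_, ?_⟩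
    · rw [aeval_CX, hC]
      exact h1
    · rw [aeval_CX, aeval_CX]
      exact h2

end Pool.Agent.Q154.OD
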