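import Pool.Agent.Q40.OD.Stm1
import Pool.Agent.Q154.OD.G8a

/-! Job OD-8: the local theorem. -/

set_option autoImplicit false
set_option linter.unusedSectionVars false
set_option linter.unusedVariables false

open scoped Pointwise

namespace Pool.Agent.Q154.OD

open Pool.Agent.H918R2.Quad Pool.Agent.TH214.RM Pool.Agent.H945R2.D MvPolynomial Pool.Agent.Q40.OD

section basic

variable {R F ι : Type} [CommRing R] [Field F] [Algebra R F] [Fintype ι] [DecidableEq ι]

theorem aeval_quot (x : ι → F) (s : ι) (n : ℕ) (P : MvPolynomial ι R) (hP : P.IsHomogeneous n) :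
    aeval (fun j => x j / x s) P = aeval x P / x s ^ n := by
  have h1 : (fun j => x j / x s) = fun j => x j * (x s)⁻¹ := by
    funext j
    rw [div_eq_mul_inv]
  rw [h1, aeval_scale x _ n P hP, inv_pow, div_eq_mul_inv]

/-- The evaluation at the affine coordinates. -/
noncomputable def ev (R : Type) {F ι : Type} [CommRing R] [Field F] [Algebra R F] (x : ι → F)
    (s : ι) : MvPolynomial {j : ι // j ≠ s} R →ₐ[R] F :=
  aeval (fun j : {j : ι // j ≠ s} => x j / x s)

theorem ev_deh (x : ι → F) (s : ι) (hs : x s ≠ 0) (n : ℕ) (P : MvPolynomial ι R)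
    (hP : P.IsHomogeneous n) : ev R x s (deh s P) = aeval x P / x s ^ n := by
  have h1 := aeval_deh (R := R) s (fun j => x j / x s) (div_self hs) P
  unfold ev
  rw [h1]
  exact aeval_quot x s n P hP

theorem ev_pderiv (x : ι → F) (s : ι) (hs : x s ≠ 0) (d : ℕ) (G : MvPolynomial ι R)
    (hG : G.IsHomogeneous d) (a : {a : ι // a ≠ s}) :
    ev R x s (pderiv a (deh s G)) = aeval x (pderiv (a : ι) G) / x s ^ (d - 1) := by
  rw [pderiv_deh]
  exact ev_deh x s hs (d - 1) _ hG.pderiv

theorem ev_mem (𝒪 : Subring F) (hR : ∀ r : R, algebraMap R F r ∈ 𝒪) (x : ι → F) (s : ι)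
    (hz : ∀ j, x j / x s ∈ 𝒪) : ∀ w, ev R x s w ∈ 𝒪 := by
  intro w
  induction w using MvPolynomial.induction_on with
  | C r => unfold ev; rw [aeval_C]; exact hR r
  | add p q hp hq => rw [map_add]; exact 𝒪.add_mem hp hq
  | mul_X p j hp =>
    rw [map_mul]
    refine 𝒪.mul_mem hp ?_
    unfold ev
    rw [aeval_X]
    exact hz _

theorem ev_coord (x : ι → F) (s : ι) (hs : x s ≠ 0) (j : ι) :
    ∃ w : MvPolynomial {j : ι // j ≠ s} R, x j = x s * ev R x s w := by
  by_cases h : j = s
  · refine ⟨1, ?_⟩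
    rw [map_one, mul_one, h]
  · refine ⟨X ⟨j, h⟩, ?_⟩
    unfold ev
    rw [aeval_X]
    field_simp

theorem pow_form {W : Type} [CommRing W] (eW : W →+* F) (x : ι → F) (s : ι)
    (hx : ∀ j, ∃ w, x j = x s * eW w) (D : ℕ) (m : F) (hm : m ∈ Set.range x ^ D) :
    ∃ w, m = x s ^ D * eW w := by
  obtain ⟨φ, rfl⟩ := (Pool.Agent.H945R2.D.GD1aux.mem_range_pow x D m).1 hm
  choose w hw using hx
  refine ⟨∏ i, w (φ i), ?_⟩
  rw [map_prod, Finset.prod_congr rfl fun i _ => hw (φ i), Finset.prod_mul_distrib,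
    Finset.prod_const, Finset.card_univ, Fintype.card_fin]

theorem gens_form {W : Type} [CommRing W] (eW : W →+* F) (π : R) (G : MvPolynomial ι R) (d : ℕ)
    (x : ι → F) (r D : ℕ) (s : ι) (hx : ∀ j, ∃ w, x j = x s * eW w) (c : Fin r → F)
    (hc : ∀ j : Fin r, ∀ z ∈ Jset π G d x ((j : ℕ) + 1), ∃ w, z = c j * eW w) :
    ∀ z ∈ Gens π G d x r D, ∃ w, z = (x s ^ D * ∏ j, c j) * eW w := by
  rintro z ⟨m, hm, g, hg, rfl⟩
  obtain ⟨w1, hw1⟩ := pow_form eW x s hx D m hm
  choose w hw using fun j => hc j _ (hg j)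
  refine ⟨w1 * ∏ j, w j, ?_⟩
  rw [hw1, Finset.prod_congr rfl fun j _ => hw j, Finset.prod_mul_distrib, map_mul, map_prod]
  ring

theorem euler_form {W : Type} [CommRing W] (eW : W →+* F) (G : MvPolynomial ι R) (d : ℕ)
    (hGd : G.IsHomogeneous d) (x : ι → F) (hrel : aeval x G = 0) (s : ι) (hs : x s ≠ 0)
    (hx : ∀ j, ∃ w, x j = x s * eW w) (c : F)
    (h : ∀ a : {a : ι // a ≠ s}, ∃ w, aeval x (pderiv (a : ι) G) = c * eW w) (a : ι) :
    ∃ w, aeval x (pderiv a G) = c * eW w := by
  by_cases ha : a = s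
  · subst ha
    choose w hw using h
    choose v hv using hx
    refine ⟨-∑ b : {b : ι // b ≠ a}, v b * w b, ?_⟩
    have h2 := congrArg (aeval x) hGd.sum_X_mul_pderiv
    simp only [map_sum, map_mul, aeval_X, map_nsmul, hrel, smul_zero] at h2
    rw [Fintype.sum_eq_add_sum_subtype_ne _ a] at h2
    have h3 : x a * aeval x (pderiv a G) =
        x a * (c * eW (-∑ b : {b : ι // b ≠ a}, v b * w b)) := by
      rw [eq_neg_of_add_eq_zero_left h2, map_neg, map_sum, mul_neg, mul_neg, Finset.mul_sum,
        Finset.mul_sum]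
      congr 1
      refine Finset.sum_congr rfl fun b _ => ?_
      rw [hw b, map_mul]
      nth_rewrite 1 [hv b]
      ring
    exact mul_left_cancel₀ hs h3
  · exact h ⟨a, ha⟩

theorem jset_form {W : Type} [CommRing W] (eW : W →+* F) (π : R) (G : MvPolynomial ι R) (d : ℕ)
    (hGd : G.IsHomogeneous d) (x : ι → F) (hrel : aeval x G = 0) (s : ι) (hs : x s ≠ 0)
    (hx : ∀ j, ∃ w, x j = x s * eW w) (c : F) (j : ℕ)
    (h : ∀ a : {a : ι // a ≠ s}, ∃ w, aeval x (pderiv (a : ι) G) = c * eW w)
    (h' : ∃ w, algebraMap R F π ^ j * x s ^ (d - 1) = c * eW w) :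
    ∀ z ∈ Jset π G d x j, ∃ w, z = c * eW w := by
  rintro z (⟨a, rfl⟩ | ⟨m, hm, rfl⟩)
  · exact euler_form eW G d hGd x hrel s hs hx c h a
  · obtain ⟨w1, hw1⟩ := pow_form eW x s hx (d - 1) m hm
    obtain ⟨w2, hw2⟩ := h'
    refine ⟨w2 * w1, ?_⟩
    change algebraMap R F π ^ j * m = _
    rw [hw1, map_mul, ← mul_assoc, hw2]
    ring

end basic

/-- **Job OD-8.** -/
theorem s_od8 (h2 : S_OD2) (h3 : S_OD3) (h5 : S_OD5) (h6 : S_OD6) (h7 : S_OD7) : S_OD8 := by
  intro R F _ _ _ _ _ 𝒪 hloc hR hRU hRF π hπ ι _ _ G hG0 d hd hGd hnd x hrel hind N hN r D hr hD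
    f hf hfG hG hloc2
  obtain ⟨s, hs, hz, hcase⟩ := h7 𝒪 hloc hR hRF π hπ G d hd hGd x hrel r D hD f hf hfG hG
  obtain ⟨j₀, hj₀⟩ := hind s hs
  obtain ⟨e, he⟩ : ∃ e, e = ev R x s := ⟨_, rfl⟩
  have heC : ∀ r, e (C r) = algebraMap R F r := fun r => by
    rw [he]
    exact aeval_C _ r
  have heX : ∀ j, e (X j) = x j / x s := fun j => by
    rw [he]
    exact aeval_X _ j
  have heW : ∀ w, e w ∈ 𝒪 := by
    rw [he]
    exact ev_mem 𝒪 hR x s hz
  obtain ⟨g, hg⟩ : ∃ g, g = deh s G := ⟨_, rfl⟩
  have hg0 : g ≠ 0 := by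
    rw [hg]
    exact deh_ne_zero s G hG0 d hGd
  have hge : e g = 0 := by
    rw [he, hg, ev_deh x s hs d G hGd, hrel, zero_div]
  have hDe : ∀ a : {a : ι // a ≠ s}, e (pderiv a g) =
      aeval x (pderiv (a : ι) G) / x s ^ (d - 1) := by
    intro a
    rw [he, hg]
    exact ev_pderiv x s hs d G hGd a
  have hxw : ∀ j, ∃ w, x j = x s * e w := by
    rw [he]
    exact ev_coord x s hs
  have hxd : x s ^ (d - 1) ≠ 0 := pow_ne_zero _ hs
  have hDe' : ∀ a : {a : ι // a ≠ s}, aeval x (pderiv (a : ι) G) =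
      x s ^ (d - 1) * e (pderiv a g) := by
    intro a
    rw [hDe]
    field_simp
  have hUC : ∀ r : R, U 𝒪 (e (C r)) ↔ IsUnit r := by
    intro r
    rw [heC]
    refine ⟨hRU r, fun h => ?_⟩
    obtain ⟨u, rfl⟩ := h
    have h1 : algebraMap R F (u : R) * algebraMap R F ((u⁻¹ : Rˣ) : R) = 1 := by
      rw [← map_mul, Units.mul_inv, map_one]
    refine ⟨left_ne_zero_of_mul_eq_one h1, hR _, ?_⟩
    rw [inv_eq_of_mul_eq_one_right h1]
    exact hR _
  let Q : Ideal (MvPolynomial {j : ι // j ≠ s} R) := primeOf hloc (e : MvPolynomial {j : ι // j ≠ s} R →+* F) heW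
  have hQp : Q.IsPrime := primeOf_isPrime hloc (e : MvPolynomial {j : ι // j ≠ s} R →+* F) heW
  have hQm : ∀ z, z ∈ Q ↔ ¬ U 𝒪 (e z) := fun z => mem_primeOf hloc (e : MvPolynomial {j : ι // j ≠ s} R →+* F) heW z
  have hπF : algebraMap R F π ≠ 0 := by
    rw [Ne, map_eq_zero_iff _ hRF]
    exact hπ.ne_zero
  rcases hcase with ⟨⟨a, ha⟩, hfU⟩ | ⟨hnu, hcase⟩
  · -- the point is smooth over `R`
    have hG' : ∀ z ∈ Gens π G d x r D, ∃ w, z = x s ^ (D + r * (d - 1)) * e w := by
      have h1 := gens_form (e : MvPolynomial {j : ι // j ≠ s} R →+* F) π G d x r D s hxw (fun _ => x s ^ (d - 1))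
        (fun j => jset_form (e : MvPolynomial {j : ι // j ≠ s} R →+* F) π G d hGd x hrel s hs hxw _ _
          (fun a => ⟨_, hDe' a⟩) ⟨C π ^ ((j : ℕ) + 1), by
            change _ = x s ^ (d - 1) * e (C π ^ ((j : ℕ) + 1))
            rw [map_pow, heC, mul_comm]⟩)
      intro z hz
      obtain ⟨w, hw⟩ := h1 z hz
      refine ⟨w, ?_⟩
      rw [hw, Finset.prod_const, Finset.card_univ, Fintype.card_fin, ← pow_mul, pow_add,
        mul_comm (d - 1) r]
      rfl
    have hfrac := frac_of_chart e heW (Gens π G d x r D) f (x s ^ (D + r * (d - 1)))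
      (pow_ne_zero _ hs) hG' hfG hfU hloc2
    let I : Ideal (MvPolynomial {j : ι // j ≠ s} R) := Ideal.span {g}
    have hI : ∀ w ∈ I, e w = 0 := by
      intro w hw
      obtain ⟨c, rfl⟩ := Ideal.mem_span_singleton.1 hw
      rw [map_mul, hge, zero_mul]
    obtain ⟨A, _, _, pr, hpr, hprk, hpr0⟩ := exists_quot (R := R) I
    have haev : ∀ p : MvPolynomial {j : ι // j ≠ s} R,
        aeval (fun j : {j : ι // j ≠ s} => (X j : MvPolynomial {j : ι // j ≠ s} R)) p = p := by
      intro p
      rw [aeval_X_left_apply]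
    refine regular_of_pres 𝒪 hloc pr hpr e ?_ heW hfrac ?_
      (fun j : {j : ι // j ≠ s} => X j) g hg0 ?_ j₀ ?_ ?_
    · intro w hw
      exact hI w ((hpr0 w).1 hw)
    · intro q hq hqm
      refine regular_of_pderiv g (pr : MvPolynomial {j : ι // j ≠ s} R →+* A) hpr hprk q a ?_
      change pr (pderiv a g) ∉ q
      rw [hqm, not_not, hDe]
      exact ha
    · rw [haev, hpr0]
      exact Ideal.mem_span_singleton_self _
    · convert hj₀ using 2 with j
      exact heX _
    · intro w
      refine ⟨w, 1, by simp, ?_⟩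
      rw [haev 1, one_mul, haev]
  · -- the point is singular, so it is nondegenerate
    have hDQ : ∀ a, pderiv a g ∈ Q := by
      intro a
      rw [hQm, hDe]
      exact hnu a
    have hgQ : g ∈ Q := by
      rw [hQm, hge]
      exact not_U_zero
    have hCQ : ∀ r : R, C r ∈ Q ↔ ¬ IsUnit r := fun r => by rw [hQm, hUC]
    have hπQ : C π ∈ Q := (hCQ π).2 hπ.not_isUnit
    have hπU : ¬ U 𝒪 (algebraMap R F π) := by
      rw [← heC, ← hQm]
      exact hπQ
    have hH : (Hess g).det ∉ Q := by
      rw [hg]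
      refine hnd s Q hQp ?_ hCQ ?_
      · rw [← hg]; exact hgQ
      · rw [← hg]; exact hDQ
    obtain ⟨hgen, hmax, hht⟩ := h2 π hπ (fun a => pderiv a g) Q hπQ hDQ hH
    obtain ⟨v, c, u, q, hv1, hvN, hc, hu, hq, hcg⟩ := h3 π hπ g Q hπQ hgQ hDQ hH N
      (by rw [hg]; exact hN s)
    have hUu : U 𝒪 (e u) := by
      by_contra h
      exact hu ((hQm u).2 h)
    have hrel0 : e u * algebraMap R F π ^ v +
        ∑ a, ∑ b, e (q a b) * e (pderiv a g) * e (pderiv b g) = 0 := by
      have h1 := congrArg e hcg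
      rw [map_mul, hge, mul_zero] at h1
      rw [h1]
      simp only [map_add, map_mul, map_pow, map_sum, heC]
    rcases hcase with hB | ⟨k, i, hkr, hi0, hsa, hTm, hwm, hwU, hfU⟩
    · -- impossible
      exfalso
      let z : {a : ι // a ≠ s} → F := fun a => e (pderiv a g) / algebraMap R F π ^ r
      have hzm : ∀ a, z a ∈ 𝒪 := by
        intro a
        have h1 := hB a
        rw [← hDe] at h1
        exact h1
      have hze : ∀ a, e (pderiv a g) = algebraMap R F π ^ r * z a := by
        intro a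
        simp only [z]
        field_simp
      obtain ⟨l, hl⟩ : ∃ l, r + r = v + (1 + l) := ⟨r + r - v - 1, by omega⟩
      have h1 : algebraMap R F π ^ v * (e u + algebraMap R F π * (algebraMap R F π ^ l *
          ∑ a, ∑ b, e (q a b) * z a * z b)) = 0 := by
        rw [← hrel0]
        have h4 : ∑ a, ∑ b, e (q a b) * e (pderiv a g) * e (pderiv b g) =
            algebraMap R F π ^ (r + r) * ∑ a, ∑ b, e (q a b) * z a * z b := by
          simp only [hze, Finset.mul_sum, pow_add]
          refine Finset.sum_congr rfl fun a _ => Finset.sum_congr rfl fun b _ => ?_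
          ring
        rw [h4, hl]
        ring
      have h4 : e u = algebraMap R F π * -(algebraMap R F π ^ l *
          ∑ a, ∑ b, e (q a b) * z a * z b) := by
        rcases mul_eq_zero.1 h1 with h | h
        · exact absurd h (pow_ne_zero _ hπF)
        · linear_combination h
      rw [h4] at hUu
      refine hπU (hUu.of_mul_left (hR π) (𝒪.neg_mem (𝒪.mul_mem (𝒪.pow_mem (hR π) _) ?_)))
      exact 𝒪.sum_mem fun a _ => 𝒪.sum_mem fun b _ =>
        𝒪.mul_mem (𝒪.mul_mem (heW _) (hzm a)) (hzm b)
    · -- the main case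
      obtain ⟨y, hy⟩ : ∃ y, y = e (pderiv i g) := ⟨_, rfl⟩
      have hyi : aeval x (pderiv (i : ι) G) / x s ^ (d - 1) = y := by rw [hy, hDe]
      rw [hyi] at hTm hwm hwU hfU
      have hy0 : y ≠ 0 := by
        rw [← hyi]
        exact div_ne_zero hi0 hxd
      obtain ⟨p, hp⟩ : ∃ p, p = algebraMap R F π := ⟨_, rfl⟩
      rw [← hp] at hTm hwm hwU hfU hπF hπU
      have hsa' : ∀ a : {a : ι // a ≠ s}, e (pderiv a g) / y ∈ 𝒪 := by
        intro a
        have h1 := hsa a
        rw [hDe' a, hDe' i, ← hy, mul_div_mul_left _ _ hxd] at h1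
        exact h1
      have hfrac : ∀ z ∈ 𝒪, ∃ a b : MvPolynomial (Option {a : ι // a ≠ s})
          (MvPolynomial {a : ι // a ≠ s} R),
          evW e (vals (p ^ (k + 1) / y) (y / p ^ k) (fun a => e (pderiv a g) / y) i) b ≠ 0 ∧
          (evW e (vals (p ^ (k + 1) / y) (y / p ^ k) (fun a => e (pderiv a g) / y) i) b)⁻¹ ∈ 𝒪 ∧
          z = evW e (vals (p ^ (k + 1) / y) (y / p ^ k) (fun a => e (pderiv a g) / y) i) a /
            evW e (vals (p ^ (k + 1) / y) (y / p ^ k) (fun a => e (pderiv a g) / y) i) b := by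
        obtain ⟨eW, heWd⟩ : ∃ eW, eW = evW e (vals (p ^ (k + 1) / y) (y / p ^ k)
          (fun a => e (pderiv a g) / y) i) := ⟨_, rfl⟩
        rw [← heWd]
        have hC : ∀ a, eW (C a) = e a := fun a => by rw [heWd]; exact evW_C _ _ a
        have hXn : eW (X none) = p ^ (k + 1) / y := by rw [heWd, evW_X]; rfl
        have hXi : eW (X (some i)) = y / p ^ k := by
          rw [heWd, evW_X]
          change (if i = i then _ else _) = _
          rw [if_pos rfl]
        have hsv : ∀ a, eW (sv (MvPolynomial {a : ι // a ≠ s} R) i a) = e (pderiv a g) / y := by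
          intro a
          unfold sv
          split_ifs with h
          · rw [map_one, h, ← hy, div_self hy0]
          · rw [heWd, evW_X]
            change (if a = i then _ else _) = _
            rw [if_neg h]
        have hCp : ∀ n : ℕ, eW (C (C π ^ n)) = p ^ n := by
          intro n
          rw [hC, map_pow, heC, hp]
        have heWm : ∀ z, eW z ∈ 𝒪 := by
          rw [heWd]
          refine evW_mem 𝒪 e _ heW fun o => ?_
          rcases o with _ | a
          · exact hwm
          · change (if a = i then _ else _) ∈ 𝒪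
            split_ifs
            · exact hTm
            · exact hsa' a
        have hxw' : ∀ j, ∃ w, x j = x s * eW w := by
          intro j
          obtain ⟨w, hw⟩ := hxw j
          exact ⟨C w, by rw [hC]; exact hw⟩
        have hG' := gens_form (eW : MvPolynomial (Option {a : ι // a ≠ s}) (MvPolynomial {a : ι // a ≠ s} R) →+* F) π G d x r D s hxw'
          (fun j : Fin r => x s ^ (d - 1) * (if (j : ℕ) < k then p ^ ((j : ℕ) + 1) else y)) (by
            intro j
            refine jset_form (eW : MvPolynomial (Option {a : ι // a ≠ s}) (MvPolynomial {a : ι // a ≠ s} R) →+* F) π G d hGd x hrel s hs hxw' _ _ ?_ ?_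
            · intro a
              by_cases hjk : (j : ℕ) < k
              · rw [if_pos hjk]
                refine ⟨C (C π ^ (k - ((j : ℕ) + 1))) * X (some i) *
                  sv (MvPolynomial {a : ι // a ≠ s} R) i a, ?_⟩
                change _ = _ * eW _
                rw [map_mul, map_mul, hCp, hXi, hsv, hDe' a]
                obtain ⟨l, hl⟩ := Nat.exists_eq_add_of_le (show (j : ℕ) + 1 ≤ k from hjk)
                have hl2 : k - ((j : ℕ) + 1) = l := by omega
                rw [hl2]
                have hpk : p ^ k = p ^ ((j : ℕ) + 1) * p ^ l := by rw [← pow_add, ← hl]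
                rw [hpk]
                field_simp
              · rw [if_neg hjk]
                refine ⟨sv (MvPolynomial {a : ι // a ≠ s} R) i a, ?_⟩
                change _ = _ * eW _
                rw [hsv, hDe' a]
                field_simp
            · by_cases hjk : (j : ℕ) < k
              · rw [if_pos hjk]
                refine ⟨1, ?_⟩
                rw [map_one, mul_one, ← hp, mul_comm]
              · rw [if_neg hjk]
                refine ⟨C (C π ^ ((j : ℕ) - k)) * X none, ?_⟩
                change _ = _ * eW _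
                rw [map_mul, hCp, hXn, ← hp]
                obtain ⟨l, hl⟩ := Nat.exists_eq_add_of_le (show k ≤ (j : ℕ) by omega)
                have hl2 : (j : ℕ) - k = l := by omega
                have hl3 : (j : ℕ) + 1 = l + (k + 1) := by omega
                rw [hl2, hl3, pow_add p l]
                field_simp)
        have hprod : x s ^ D * ∏ j : Fin r, (x s ^ (d - 1) *
            (if (j : ℕ) < k then p ^ ((j : ℕ) + 1) else y)) =
            x s ^ (D + r * (d - 1)) * (∏ j ∈ Finset.range k, p ^ (j + 1)) * y ^ (r - k) := by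
          rw [Finset.prod_mul_distrib, Finset.prod_const, Finset.card_univ, Fintype.card_fin,
            ← pow_mul, Fin.prod_univ_eq_prod_range (fun j => if j < k then p ^ (j + 1) else y) r]
          have h8 : ∏ j ∈ Finset.range r, (if j < k then p ^ (j + 1) else y) =
              (∏ j ∈ Finset.range k, p ^ (j + 1)) * y ^ (r - k) := by
            obtain ⟨l, hl⟩ := Nat.exists_eq_add_of_le hkr.le
            rw [hl, Finset.prod_range_add]
            congr 1
            · exact Finset.prod_congr rfl fun j hj => if_pos (Finset.mem_range.1 hj)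
            · have h9 : k + l - k = l := by omega
              rw [h9, Finset.prod_congr rfl fun j _ => if_neg (show ¬ k + j < k by omega),
                Finset.prod_const, Finset.card_range]
          rw [h8, pow_add, mul_comm (d - 1) r]
          ring
        rw [hprod] at hG'
        refine frac_of_chart eW heWm (Gens π G d x r D) f _ ?_ hG' hfG hfU hloc2
        exact mul_ne_zero (mul_ne_zero (pow_ne_zero _ hs) (Finset.prod_ne_zero_iff.2 fun j _ =>
          pow_ne_zero _ hπF)) (pow_ne_zero _ hy0)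
      refine caseC h5 h6 𝒪 hloc hRF π hπ e heW g (fun a => pderiv a g) Q hQm hπQ hDQ hgen hht
        v c u q hv1 hc hu hq hcg hg0 hge k i (by rw [← hy]; exact hy0) (p ^ (k + 1) / y)
        (y / p ^ k) (fun a => e (pderiv a g) / y) ?_ ?_ ?_ hwm hwU hTm hsa' hfrac j₀ ?_
      · rw [← hp]
        field_simp
        ring
      · intro a
        have hwT : p ^ (k + 1) / y * (y / p ^ k) = p := by
          field_simp
          ring
        have h9 : (p ^ (k + 1) / y) ^ k * (y / p ^ k) ^ (k + 1) * (e (pderiv a g) / y) =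
            (p ^ (k + 1) / y * (y / p ^ k)) ^ k * (y / p ^ k) * (e (pderiv a g) / y) := by
          rw [mul_pow, pow_succ (y / p ^ k) k]
          ring
        change e (pderiv a g) = (p ^ (k + 1) / y) ^ k * (y / p ^ k) ^ (k + 1) *
          (e (pderiv a g) / y)
        rw [h9, hwT]
        field_simp
      · change e (pderiv i g) / y = 1
        rw [← hy, div_self hy0]
      · convert hj₀ using 2 with j
        exact heX _

end Pool.Agent.Q154.OD
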